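import Pool.Agent.Lib.H9U.FDefs

/-!
# The core statement for a system of linear forms, as a hypothesis

`CoreOf S`: the conclusion of `H9U.CORE` for the system `S`. Everything in this folder (boxes, covering, the two families
of the hand-ins) uses only this.
-/

open Finset

namespace Pool.Agent.H96U

open Pool.Agent.H9U
open Pool.Agent.Lib.H59P (bx)

open Classical in
/-- All but few `t` which are admissible have many simultaneous prime values (all values in the windows `JJ (Xs i)`). -/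
def CoreOf {k d : ℕ} (S : Sys k d) : Prop :=
  ∀ C0 : ℕ, 1 ≤ C0 → ∀ ε : ℝ, 0 < ε → ∃ κ : ℝ, 0 < κ ∧ ∃ X0 : ℕ, ∀ X : ℕ, X0 ≤ X →
    ∀ Xs : Fin k → ℕ, (∀ i, X ≤ Xs i ∧ Xs i ≤ C0 * X) → ∀ (b : Fin k → ℤ) (L T : ℕ), X ≤ L → L ≤ C0 * X → T ≤ C0 * X →
    (∀ i, ∀ n ∈ range L, ∀ t ∈ bx d T, S.val b n (iv t) i ∈ JJ (Xs i)) →
    (((bx d T).filter (fun t => S.Adm b (iv t) ∧
      (((range L).filter (fun n : ℕ => ∀ i, (S.val b n (iv t) i).toNat.Prime)).card : ℝ) < (X : ℝ) ^ (1 - ε))).card : ℝ) ≤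
      (X : ℝ) ^ (d - κ)

/-- No two of the linear forms are proportional, and all depend on `n`. -/
def Fin2 {k d : ℕ} (S : Sys k d) : Prop :=
  (∀ i, S.a i ≠ 0) ∧ ∀ i j, i ≠ j → ∃ l, S.a i * S.c j l ≠ S.a j * S.c i l

end Pool.Agent.H96U
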