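import Pool.Agent.Lib.H96U.F1

/-!
# Covering a large box, from `CoreOf` (copy of H9U/F2.lean, helper22)
-/

open Finset

namespace Pool.Agent.H96U

open Pool.Agent.H9U

open Pool.Agent.Lib.H59P (bx)

lemma f2_large (c M : ℝ) (hc : 0 < c) : ∃ X0 : ℕ, ∀ X : ℕ, X0 ≤ X → M ≤ (X : ℝ) ^ c := by
  have h1 : Filter.Tendsto (fun X : ℕ => (X : ℝ) ^ c) Filter.atTop Filter.atTop :=
    (tendsto_rpow_atTop hc).comp tendsto_natCast_atTop_atTop
  exact Filter.eventually_atTop.1 (h1.eventually_ge_atTop M)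

lemma f2_card_bx (d T : ℕ) : (bx d T).card = T ^ d := by
  unfold bx
  rw [Fintype.card_piFinset, Finset.prod_const, Finset.card_univ, Fintype.card_fin, Finset.card_range]

lemma f2_val {k d : ℕ} (S : Sys k d) (b : Fin k → ℤ) (n0 : ℤ) (t u : Fin d → ℕ) (T' : ℕ)
    (h : ∀ j, u j ≤ t j ∧ t j ≤ u j + T') (i : Fin k) :
    |S.val b n0 (iv t) i - S.val b n0 (iv u) i| ≤ (S.sc * T' : ℕ) := by
  have h1 : S.val b n0 (iv t) i - S.val b n0 (iv u) i = ∑ j, S.c i j * ((t j : ℤ) - u j) := by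
    have h2 : ∑ j, S.c i j * ((t j : ℤ) - u j) = ∑ j, S.c i j * (t j : ℤ) - ∑ j, S.c i j * (u j : ℤ) := by
      rw [← Finset.sum_sub_distrib]
      exact Finset.sum_congr rfl fun j _ => mul_sub _ _ _
    rw [h2]
    unfold Sys.val Sys.lin iv
    ring
  rw [h1]
  refine (Finset.abs_sum_le_sum_abs _ _).trans ?_
  have h3 : ∀ j ∈ (univ : Finset (Fin d)), |S.c i j * ((t j : ℤ) - u j)| ≤ ((S.c i j).natAbs : ℤ) * T' := by
    intro j _
    rw [abs_mul, Int.abs_eq_natAbs]
    refine mul_le_mul_of_nonneg_left ?_ (Int.natCast_nonneg _)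
    obtain ⟨h4, h5⟩ := h j
    rw [abs_of_nonneg (by omega)]
    omega
  refine (Finset.sum_le_sum h3).trans ?_
  rw [← Finset.sum_mul]
  have h6 : ∑ j, (S.c i j).natAbs ≤ S.sc := by
    unfold Sys.sc
    have := Finset.single_le_sum (f := fun i => ∑ j, (S.c i j).natAbs) (fun _ _ => Nat.zero_le _) (mem_univ i)
    omega
  have h7 : (∑ j, (S.c i j).natAbs) * T' ≤ S.sc * T' := Nat.mul_le_mul_right _ h6
  exact_mod_cast h7

open Classical in
/-- Proof. `F1_box` with `C0 + 1`: `κ1, X1`. `T' = X / S.sc`, so `X ≤ 2 S.sc T'` and `T' ≥ 1` for `X ≥ S.sc` . Every `t ∈ bx d T` is `T' q + r`, `q j = t j / T' < M := 2 (C0 + 1) S.sc`, `r j = t j % T'`, so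
the set on the left is contained in the union over `q ∈ bx d M` of the images under `r ↦ T' q + r` of the sets of the `r ∈ bx d T'` with `Few (T' q + r)`, where only those `q` count for which the
conditions hold for one `t = T' q + r` in the set; for such a `q`, `u = T' q`: `|S.val b n0 (iv u) i - S.val b n0 (iv t) i| ≤ ∑_j |c_ij| T' ≤ X`, so `F1_box` applies (`20 S.sa X - X ≥ 19 S.sa X`). Total at most
`M^d X^(d-κ1) ≤ X^(d-κ1/2)` for large `X`; `κ = κ1/2`. -/
theorem F2_cover {k d : ℕ} (S : Sys k d) (hC : CoreOf S) (C0 : ℕ)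
    (ε : ℝ) (hε : 0 < ε) : ∃ κ : ℝ, 0 < κ ∧ κ ≤ 1 ∧ ∃ X0 : ℕ, ∀ X : ℕ, X0 ≤ X → ∀ (b : Fin k → ℤ) (n0 : ℤ) (T : ℕ), T ≤ C0 * X →
    (((bx d T).filter (fun t => (∀ i, (20 * S.sa * X : ℕ) ≤ S.val b n0 (iv t) i ∧ S.val b n0 (iv t) i ≤ (C0 * X : ℕ)) ∧
      S.Few b n0 X ε t)).card : ℝ) ≤ (X : ℝ) ^ (d - κ) := by
  obtain ⟨κ1, hκ1, hκ1', X1, H⟩ := F1_box S hC (C0 + 1) ε hε
  obtain ⟨M, hM⟩ : ∃ M, M = 2 * (C0 + 1) * S.sc := ⟨_, rfl⟩
  obtain ⟨X2, hX2⟩ := f2_large (κ1 / 2) ((M : ℝ) ^ d) (by positivity)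
  refine ⟨κ1 / 2, by positivity, by linarith, max (max X1 X2) (max S.sc 1), ?_⟩
  intro X hX b n0 T hT
  have g1 : X1 ≤ X := ((le_max_left _ _).trans (le_max_left _ _)).trans hX
  have g2 : X2 ≤ X := ((le_max_right _ _).trans (le_max_left _ _)).trans hX
  have g3 : S.sc ≤ X := ((le_max_left _ _).trans (le_max_right _ _)).trans hX
  have g4 : 1 ≤ X := ((le_max_right _ _).trans (le_max_right _ _)).trans hX
  have hX0 : (0 : ℝ) < X := by exact_mod_cast g4
  have hsc : 1 ≤ S.sc := by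
    unfold Sys.sc
    omega
  have hsa : 1 ≤ S.sa := by
    unfold Sys.sa
    omega
  obtain ⟨T', hT'⟩ : ∃ T', T' = X / S.sc := ⟨_, rfl⟩
  have hT'1 : 1 ≤ T' := by
    rw [hT']
    exact (Nat.one_le_div_iff (by omega)).2 g3
  have hT'X : S.sc * T' ≤ X := by
    rw [hT']
    exact Nat.mul_div_le X S.sc
  have hXT' : X ≤ 2 * S.sc * T' := by
    have h1 : X < S.sc * (T' + 1) := by
      rw [hT']
      exact Nat.lt_mul_div_succ X (by omega)
    nlinarith
  obtain ⟨A, hA⟩ : ∃ A, A = (bx d T).filter (fun t => (∀ i, (20 * S.sa * X : ℕ) ≤ S.val b n0 (iv t) i ∧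
      S.val b n0 (iv t) i ≤ (C0 * X : ℕ)) ∧ S.Few b n0 X ε t) := ⟨_, rfl⟩
  rw [← hA]
  have hmap : ∀ t ∈ A, (fun j => t j / T') ∈ bx d M := by
    intro t ht
    rw [hA, Finset.mem_filter] at ht
    have h1 := Fintype.mem_piFinset.1 ht.1
    refine Fintype.mem_piFinset.2 fun j => ?_
    have h2 := Finset.mem_range.1 (h1 j)
    rw [Finset.mem_range]
    apply Nat.div_lt_of_lt_mul
    calc t j < T := h2
      _ ≤ C0 * X := hT
      _ ≤ C0 * (2 * S.sc * T') := Nat.mul_le_mul_left _ hXT'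
      _ ≤ T' * M := by
        rw [hM]
        nlinarith [Nat.zero_le (S.sc * T')]
  have hfib : ∀ q ∈ bx d M, (((A.filter (fun t => (fun j => t j / T') = q)).card : ℕ) : ℝ) ≤
      (X : ℝ) ^ ((d : ℝ) - κ1) := by
    intro q _
    rcases (A.filter (fun t => (fun j => t j / T') = q)).eq_empty_or_nonempty with h0 | ⟨t0, ht0⟩
    · rw [h0, Finset.card_empty, Nat.cast_zero]
      exact Real.rpow_nonneg hX0.le _
    · obtain ⟨u, hu⟩ : ∃ u : Fin d → ℕ, u = fun j => T' * q j := ⟨_, rfl⟩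
      have hdec : ∀ t : Fin d → ℕ, (fun j => t j / T') = q → ∀ j, t j = u j + t j % T' := by
        intro t ht j
        rw [hu]
        change t j = T' * q j + t j % T'
        rw [← ht]
        exact (Nat.div_add_mod (t j) T').symm
      rw [Finset.mem_filter, hA, Finset.mem_filter] at ht0
      obtain ⟨⟨-, hc0, -⟩, hq0⟩ := ht0
      have hbox := H X g1 b n0 u (by
        intro i
        have h1 := f2_val S b n0 t0 u T' (fun j => by
          have h2 := hdec t0 hq0 j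
          have h3 := Nat.mod_lt (t0 j) (show T' > 0 by omega)
          omega) i
        obtain ⟨h4, h5⟩ := hc0 i
        have h6 : ((S.sc * T' : ℕ) : ℤ) ≤ X := by exact_mod_cast hT'X
        rw [abs_le] at h1
        have h7 : X ≤ S.sa * X := Nat.le_mul_of_pos_left _ hsa
        have h8 : 19 * S.sa * X + X ≤ 20 * S.sa * X := by nlinarith
        have h9 : ((19 * S.sa * X : ℕ) : ℤ) + X ≤ ((20 * S.sa * X : ℕ) : ℤ) := by exact_mod_cast h8
        have h10 : (((C0 + 1) * X : ℕ) : ℤ) = ((C0 * X : ℕ) : ℤ) + X := by push_cast; ring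
        constructor
        · linarith
        · rw [h10]
          linarith)
      rw [← hT'] at hbox
      refine le_trans ?_ hbox
      rw [Nat.cast_le]
      refine Finset.card_le_card_of_injOn (fun t j => t j % T') ?_ ?_
      · intro t ht
        have ht' := (Finset.mem_filter.1 (Finset.mem_coe.1 ht))
        rw [hA, Finset.mem_filter] at ht'
        obtain ⟨⟨-, -, hf⟩, hq⟩ := ht'
        refine Finset.mem_coe.2 (Finset.mem_filter.2 ⟨?_, ?_⟩)
        · exact Fintype.mem_piFinset.2 fun j => Finset.mem_range.2 (Nat.mod_lt _ (by omega))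
        · have h2 : (fun j => u j + t j % T') = t := funext fun j => (hdec t hq j).symm
          change S.Few b n0 X ε (fun j => u j + t j % T')
          rw [h2]
          exact hf
      · intro t ht t' ht' heq
        have h1 := (Finset.mem_filter.1 (Finset.mem_coe.1 ht)).2
        have h2 := (Finset.mem_filter.1 (Finset.mem_coe.1 ht')).2
        funext j
        rw [hdec t h1 j, hdec t' h2 j]
        exact congrArg (fun x => u j + x) (congrFun heq j)
  have hcard := Finset.card_eq_sum_card_fiberwise (f := fun t : Fin d → ℕ => fun j => t j / T') (s := A)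
    (t := bx d M) (fun t ht => hmap t (Finset.mem_coe.1 ht))
  rw [hcard]
  push_cast
  refine (Finset.sum_le_sum hfib).trans ?_
  rw [Finset.sum_const, f2_card_bx, nsmul_eq_mul]
  push_cast
  calc (M : ℝ) ^ d * (X : ℝ) ^ ((d : ℝ) - κ1) ≤ (X : ℝ) ^ (κ1 / 2) * (X : ℝ) ^ ((d : ℝ) - κ1) :=
        mul_le_mul_of_nonneg_right (hX2 X g2) (Real.rpow_nonneg hX0.le _)
    _ = (X : ℝ) ^ ((d : ℝ) - κ1 / 2) := by
        rw [← Real.rpow_add hX0]
        congr 1
        ring

end Pool.Agent.H96U
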