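import Pool.Agent.Lib.H96U.G1

/-!
# The core theorem for all systems without proportional forms (statement; proved by project HUK)
-/

namespace Pool.Agent.H96U

open Pool.Agent.H9U

theorem fin_fsys {k d : ℕ} (c : Fin k → Fin d → ℤ) (hc : Function.Injective c) : Fin2 (fsys c) := by
  refine ⟨fun i => one_ne_zero, fun i j hij => ?_⟩
  by_contra hcon
  push Not at hcon
  refine hij (hc ?_)
  funext l
  have h1 : (1 : ℤ) * c j l = 1 * c i l := hcon l
  rw [one_mul, one_mul] at h1
  exact h1.symm

theorem fin_gsys {g d : ℕ} (γ : ℤ) (hγ : 0 < γ) (f : Fin g → ℤ) (hf : ∀ i, 0 < f i) (c : Fin g → Fin d → ℤ)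
    (h0 : ∀ i, c i ≠ 0) (hc : ∀ i j, i ≠ j → f i • c j ≠ f j • c i) : Fin2 (gsys γ f c) := by
  have key : ∀ i, ∃ l, c i l ≠ 0 := by
    intro i
    by_contra hcon
    push Not at hcon
    exact h0 i (funext hcon)
  refine ⟨fun i => ?_, fun i j => ?_⟩
  · refine Fin.cases ?_ (fun i => ?_) i
    · show -γ ≠ 0
      omega
    · show f i ≠ 0
      have := hf i
      omega
  · refine Fin.cases ?_ (fun i => ?_) i
    · refine Fin.cases (fun h => absurd rfl h) (fun j _ => ?_) j
      obtain ⟨l, hl⟩ := key j
      refine ⟨l, ?_⟩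
      show (-γ) * c j l ≠ f j * 0
      rw [mul_zero]
      exact mul_ne_zero (by omega) hl
    · refine Fin.cases (fun _ => ?_) (fun j hij => ?_) j
      · obtain ⟨l, hl⟩ := key i
        refine ⟨l, ?_⟩
        show f i * 0 ≠ (-γ) * c i l
        rw [mul_zero]
        exact (mul_ne_zero (by omega) hl).symm
      · by_contra hcon
        push Not at hcon
        refine hc i j (fun h => hij (by rw [h])) ?_
        funext l
        exact hcon l

end Pool.Agent.H96U
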