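import Pool.Agent.Lib.H96U.Final

/-!
# Schinzel's problem for linear families: power-saving exceptional sets

`G` is a fixed linear polynomial, `F_i = f_i x + b_i + ψ_i(t)` with fixed `f_i ≥ 1` and fixed integral linear forms `ψ_i` in
`t = (t_1, …, t_d)`, no two of the `g + 1` forms `s`, `f_i s + ψ_i(u)` proportional; the `b_i = b_i(N)` are arbitrary.
For EVERY large `N` and all but `N^(d-η)` of the `t ∈ [0, N]^d`, `N` is not admissible or `Q_1(N) ≥ N^(1-ε)`.
-/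

open Finset Polynomial Pool.Agent.Lib.H59

namespace Pool.Agent.Results.MP_0bf1d2_nt.AllLinearSystems

/-- The constant term `b_i + ∑_j c_ij t_j`. -/
def shift {g d : ℕ} (c : Fin g → Fin d → ℤ) (b : Fin g → ℤ) (t : Fin d → ℕ) (i : Fin g) : ℤ :=
  b i + ∑ j, c i j * t j

/-- The polynomials `F_i = f_i x + b_i + ∑_j c_ij t_j`. -/
noncomputable def family {g d : ℕ} (f : Fin g → ℤ) (c : Fin g → Fin d → ℤ) (b : Fin g → ℤ) (t : Fin d → ℕ) :
    Fin g → ℤ[X] :=
  fun i => C (f i) * X + C (shift c b t i)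

/-- The `t ∈ [0, N]^d` with non-negative constant terms for which `N` is admissible and `Q_1(N) < N^(1-ε)`. -/
def exceptional {g d : ℕ} (f : Fin g → ℤ) (c : Fin g → Fin d → ℤ) (b : Fin g → ℤ) (G : ℤ[X]) (N : ℕ) (ε : ℝ) :
    Set (Fin d → ℕ) :=
  {t | (∀ j, t j ≤ N) ∧ (∀ i, 0 ≤ shift c b t i) ∧ Admissible (family f c b t) G N ∧
    (primeCount (family f c b t) G N : ℝ) < (N : ℝ) ^ (1 - ε)}

/-- **The main theorem.** -/
theorem result' (hCore : ∀ (k d : ℕ) (S : Pool.Agent.H9U.Sys k d), 1 ≤ k → 1 ≤ d → Pool.Agent.H96U.Fin2 S →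
      Pool.Agent.H96U.CoreOf S) {g d : ℕ} (hd : 1 ≤ d) (G : ℤ[X]) (hG : G.natDegree = 1)
    (hG0 : 0 < G.leadingCoeff) (f : Fin g → ℤ) (hf : ∀ i, 0 < f i) (c : Fin g → Fin d → ℤ)
    (h0 : ∀ i, c i ≠ 0) (hc : ∀ i j, i ≠ j → f i • c j ≠ f j • c i) (C : ℕ) (ε : ℝ) (hε : 0 < ε) :
    ∃ η : ℝ, 0 < η ∧ ∃ N₀ : ℕ, ∀ N : ℕ, N₀ ≤ N → ∀ b : Fin g → ℤ, (∀ i, |b i| ≤ C * N) →
      ((exceptional f c b G N ε).ncard : ℝ) ≤ (N : ℝ) ^ (d - η) := by
  classical
  obtain ⟨γ, hγ⟩ : ∃ γ : ℕ, (γ : ℤ) = G.coeff 1 := by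
    refine ⟨(G.coeff 1).toNat, Int.toNat_of_nonneg ?_⟩
    have : G.leadingCoeff = G.coeff 1 := by
      unfold Polynomial.leadingCoeff
      rw [hG]
    omega
  have hγ0 : 0 < (γ : ℤ) := by
    have : G.leadingCoeff = G.coeff 1 := by
      unfold Polynomial.leadingCoeff
      rw [hG]
    rw [hγ, ← this]
    exact hG0
  have hGe : ∀ n : ℤ, G.eval n = γ * n + G.coeff 0 := by
    intro n
    have h1 := Polynomial.eq_X_add_C_of_natDegree_le_one (show G.natDegree ≤ 1 by omega)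
    rw [h1, hγ]
    simp
  obtain ⟨η, hη, N₀, h⟩ := Pool.Agent.H96U.G1_main hd γ (G.coeff 0) f hf c
    (hCore _ _ _ (by omega) hd (Pool.Agent.H96U.fin_gsys γ hγ0 f hf c h0 hc)) C ε hε
  refine ⟨η, hη, N₀, fun N hN b hb => ?_⟩
  refine le_trans (Nat.cast_le.2 ?_) (h N hN b fun i => by push_cast; exact hb i)
  rw [← Set.ncard_coe_finset]
  refine Set.ncard_le_ncard ?_ (Finset.finite_toSet _)
  rintro t ⟨h1, h2, h3, h4⟩
  have hfe : ∀ i (n : ℤ), (family f c b t i).eval n = f i * n + (b i + ∑ j, c i j * t j) := by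
    intro i n
    unfold family shift
    rw [eval_add, eval_mul, eval_C, eval_X, eval_C]
  refine mem_coe.2 (mem_filter.2 ⟨?_, h2, ?_, ?_⟩)
  · unfold Pool.Agent.Lib.H59P.bx
    rw [Fintype.mem_piFinset]
    intro j
    rw [mem_range]
    have := h1 j
    omega
  · intro l hl
    have h5 := h3.2 l hl
    push Not at h5
    obtain ⟨n, hn⟩ := h5
    refine ⟨n, fun i hi => hn ?_⟩
    rw [eval_mul, eval_prod]
    revert hi
    refine Fin.cases ?_ (fun i => ?_) i
    · intro hi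
      rw [Pool.Agent.H96U.g1_val0] at hi
      refine Dvd.dvd.mul_left ?_ _
      rw [eval_sub, eval_C, hGe]
      have e1 : (N : ℤ) - (γ * n + G.coeff 0) = N - G.coeff 0 - γ * n := by ring
      rw [e1]
      exact hi
    · intro hi
      rw [Pool.Agent.H96U.g1_valS] at hi
      refine Dvd.dvd.mul_right ?_ _
      refine Dvd.dvd.trans ?_ (Finset.dvd_prod_of_mem _ (mem_univ i))
      rw [hfe]
      exact hi
  · refine lt_of_le_of_lt (Nat.cast_le.2 ?_) h4
    unfold primeCount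
    rw [← Set.ncard_coe_finset]
    have hpos : ∀ z : ℤ, z.toNat.Prime → 0 < z ∧ ∃ q : ℕ, q.Prime ∧ z = q := by
      intro z hz
      have h5 : 0 < z := by
        have := hz.pos
        omega
      exact ⟨h5, z.toNat, hz, (Int.toNat_of_nonneg h5.le).symm⟩
    refine Set.ncard_le_ncard ?_ ?_
    · intro n hn
      rw [mem_coe, mem_filter, mem_Icc] at hn
      have e2 : (N : ℤ) - G.eval (n : ℤ) = N - G.coeff 0 - γ * n := by
        rw [hGe]
        ring
      obtain ⟨h6, h7⟩ := hpos _ hn.2.1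
      refine ⟨⟨hn.1.1, ?_⟩, fun i => ?_, ?_⟩
      · rw [e2]
        exact h6
      · rw [hfe]
        exact (hpos _ (hn.2.2 i)).2
      · rw [e2]
        exact h7
    · refine Set.Finite.subset (Finset.finite_toSet (range (N + (G.coeff 0).natAbs + 1))) ?_
      rintro n ⟨⟨h5, h6⟩, -⟩
      rw [mem_coe, mem_range]
      rw [hGe] at h6
      have h7 : (n : ℤ) ≤ γ * n := by nlinarith [Int.natCast_nonneg n]
      omega

end Pool.Agent.Results.MP_0bf1d2_nt.AllLinearSystems
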