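import Pool.Agent.Lib.HUP.Z1
import Pool.Agent.Lib.HUP.Z2

/-!
# Schinzel's problem for linear families of systems of polynomials: power-saving exceptional sets

`G` and `P_1, …, P_g` are fixed polynomials of any degrees `D_i ≥ 1`, `F_i = P_i + b_i + ψ_i(t)`, the `ψ_i` are fixed integral
linear forms in `t = (t_1, …, t_d)`, the `b_i` are arbitrary with `|b_i| ≤ A X^(D_i)`, and `t` varies in the box `|t_j| ≤ A X^(e_j)`.
Every parameter `t_j` occurs only in polynomials of degree `e_j`; the `ψ_i` are not `0`, and for two polynomials of the same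
degree the vectors (leading coefficient, form) are not proportional. One parameter is allowed.

(1) If `G` is linear: for EVERY large `N` and all `b`, for all `t` in the box with `b_i + ψ_i(t) ≥ 0` but at most `X^(e_1 + … + e_d - η)`,
`N` is not admissible or `Q_1(N) ≥ X^(1-ε)`.
(2) For every `G` the same holds for the pairs `(N, t)`.
(3) The same with an additional fixed linear polynomial `F_0`.
-/

open Finset Polynomial Pool.Agent.Lib.H59

namespace Pool.Agent.Results.MP_0bf1d2_nt.PolynomialSystems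

/-- The constant term `b_i + ∑_j c_ij t_j`. -/
def shift {g d : ℕ} (c : Fin g → Fin d → ℤ) (b : Fin g → ℤ) (t : Fin d → ℤ) (i : Fin g) : ℤ :=
  b i + ∑ j, c i j * t j

/-- The system `P_i + b_i + ∑_j c_ij t_j`. -/
noncomputable def family {g d : ℕ} (P : Fin g → ℤ[X]) (c : Fin g → Fin d → ℤ) (b : Fin g → ℤ) (t : Fin d → ℤ) :
    Fin g → ℤ[X] :=
  fun i => P i + C (shift c b t i)

/-- The conditions on the fixed data: the polynomials `P_i`, the coefficients of the linear forms and the exponents `e_j`. -/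
structure Data {g d : ℕ} (P : Fin g → ℤ[X]) (c : Fin g → Fin d → ℤ) (e : Fin d → ℕ) : Prop where
  deg : ∀ i, 1 ≤ (P i).natDegree
  pos : ∀ i, 0 < (P i).leadingCoeff
  one : ∀ j, 1 ≤ e j
  own : ∀ i j, c i j ≠ 0 → e j = (P i).natDegree
  ne : ∀ i, c i ≠ 0
  ind : ∀ i i', i ≠ i' → (P i).natDegree = (P i').natDegree →
    (P i).leadingCoeff • c i' ≠ (P i').leadingCoeff • c i

/-- `N` is admissible for `F, G`, and `Q_1(N) < T`. -/
def Few {g : ℕ} (T : ℝ) (F : Fin g → ℤ[X]) (G : ℤ[X]) (N : ℕ) : Prop :=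
  Admissible F G N ∧ (primeCount F G N : ℝ) < T

/-- The integral `t` with `|t_j| ≤ A X^(e_j)` and all constant terms `≥ 0`. -/
def region {g d : ℕ} (A X : ℕ) (c : Fin g → Fin d → ℤ) (e : Fin d → ℕ) (b : Fin g → ℤ) : Set (Fin d → ℤ) :=
  {t | (∀ j, |t j| ≤ A * (X : ℤ) ^ e j) ∧ ∀ i, 0 ≤ shift c b t i}

/-- `|b_i| ≤ A X^(deg P_i)`. -/
def Bounded {g : ℕ} (A X : ℕ) (P : Fin g → ℤ[X]) (b : Fin g → ℤ) : Prop :=
  ∀ i, |b i| ≤ A * (X : ℤ) ^ (P i).natDegree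

theorem Data.dat {g d : ℕ} {P : Fin g → ℤ[X]} {c : Fin g → Fin d → ℤ} {e : Fin d → ℕ} (h : Data P c e) :
    Pool.Agent.HUP.Dat c e (fun i => (P i).natDegree) (fun i => (P i).leadingCoeff) where
  deg := h.deg
  lc := fun i => (h.pos i).ne'
  ne := fun i => by
    by_contra hcon
    push Not at hcon
    exact h.ne i (funext hcon)
  ind := fun i i' hi hD x x' h1 h2 => by
    have hx : x = 0 := by
      by_contra hx0
      have hx' : x' ≠ 0 := fun h3 => by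
        rw [h3, zero_mul] at h1
        rcases mul_eq_zero.1 h1 with h4 | h4
        · exact hx0 h4
        · exact (h.pos i).ne' h4
      apply h.ind i i' hi hD
      funext j
      have h3 := h2 j
      show (P i).leadingCoeff * c i' j = (P i').leadingCoeff * c i j
      have h4 : x' * ((P i).leadingCoeff * c i' j) = x' * ((P i').leadingCoeff * c i j) := by
        calc x' * ((P i).leadingCoeff * c i' j) = (P i).leadingCoeff * (x' * c i' j) := by ring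
          _ = (P i).leadingCoeff * (x * c i j) := by rw [h3]
          _ = (x * (P i).leadingCoeff) * c i j := by ring
          _ = (x' * (P i').leadingCoeff) * c i j := by rw [h1]
          _ = x' * ((P i').leadingCoeff * c i j) := by ring
      exact mul_left_cancel₀ hx' h4
    refine ⟨hx, ?_⟩
    rw [hx, zero_mul] at h1
    rcases mul_eq_zero.1 h1.symm with h4 | h4
    · exact h4
    · exact absurd h4 (h.pos i').ne'
  par := h.one
  blk := h.own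

theorem region_sub {g d : ℕ} (A X : ℕ) (c : Fin g → Fin d → ℤ) (e : Fin d → ℕ) (b : Fin g → ℤ) (t : Fin d → ℤ)
    (ht : t ∈ region A X c e b) :
    t ∈ Pool.Agent.HUP.BoxT A X e ∧ ∀ i, 0 ≤ b i + Pool.Agent.HUP.lf c t i := by
  obtain ⟨h1, h2⟩ := ht
  refine ⟨?_, h2⟩
  unfold Pool.Agent.HUP.BoxT
  rw [Fintype.mem_piFinset]
  intro j
  rw [mem_Icc]
  have := abs_le.1 (h1 j)
  push_cast
  exact this

theorem region_le {g d : ℕ} {A X : ℕ} {c : Fin g → Fin d → ℤ} {e : Fin d → ℕ} {b : Fin g → ℤ} {Q R : (Fin d → ℤ) → Prop}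
    {_ : DecidablePred R} {B : ℝ} (hQ : ∀ t, (∀ i, 0 ≤ b i + Pool.Agent.HUP.lf c t i) → Q t → R t)
    (hb : (((Pool.Agent.HUP.BoxT A X e).filter R).card : ℝ) ≤ B) :
    ({t | t ∈ region A X c e b ∧ Q t}.ncard : ℝ) ≤ B := by
  refine le_trans (Nat.cast_le.2 ?_) hb
  rw [← Set.ncard_coe_finset]
  refine Set.ncard_le_ncard ?_ (Finset.finite_toSet _)
  rintro t ⟨h1, h2⟩
  obtain ⟨h3, h4⟩ := region_sub A X c e b t h1
  exact mem_coe.2 (mem_filter.2 ⟨h3, hQ t h4 h2⟩)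

theorem pairs_le {g d : ℕ} {A X Y : ℕ} {c : Fin g → Fin d → ℤ} {e : Fin d → ℕ} {b : Fin g → ℤ}
    {Q R : ℕ × (Fin d → ℤ) → Prop} {_ : DecidablePred R} {B : ℝ}
    (hQ : ∀ x : ℕ × (Fin d → ℤ), (∀ i, 0 ≤ b i + Pool.Agent.HUP.lf c x.2 i) → Q x → R x)
    (hb : (((Icc 1 Y ×ˢ Pool.Agent.HUP.BoxT A X e).filter R).card : ℝ) ≤ B) :
    ({x : ℕ × (Fin d → ℤ) | (1 ≤ x.1 ∧ x.1 ≤ Y) ∧ x.2 ∈ region A X c e b ∧ Q x}.ncard : ℝ) ≤ B := by
  refine le_trans (Nat.cast_le.2 ?_) hb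
  rw [← Set.ncard_coe_finset]
  refine Set.ncard_le_ncard ?_ (Finset.finite_toSet _)
  rintro x ⟨h0, h1, h2⟩
  obtain ⟨h3, h4⟩ := region_sub A X c e b x.2 h1
  exact mem_coe.2 (mem_filter.2 ⟨mem_product.2 ⟨mem_Icc.2 h0, h3⟩, hQ x h4 h2⟩)

/-- **The main theorem.** -/
theorem result' (hC : Pool.Agent.HUP.CoreAll) {g d : ℕ} (G : ℤ[X]) (hG : 1 ≤ G.natDegree) (hG0 : 0 < G.leadingCoeff)
    (P : Fin g → ℤ[X]) (c : Fin g → Fin d → ℤ) (e : Fin d → ℕ) (hP : Data P c e) (A : ℕ) (ε : ℝ) (hε : 0 < ε) :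
    (G.natDegree = 1 →
      ∃ η : ℝ, 0 < η ∧ ∃ N₀ : ℕ, ∀ N : ℕ, N₀ ≤ N → ∀ b : Fin g → ℤ, Bounded A (argCount G N) P b →
        ({t | t ∈ region A (argCount G N) c e b ∧
          Few ((argCount G N : ℝ) ^ (1 - ε)) (family P c b t) G N}.ncard : ℝ) ≤
            (argCount G N : ℝ) ^ ((∑ j, (e j : ℝ)) - η)) ∧
    (∃ η : ℝ, 0 < η ∧ ∃ Y₀ : ℕ, ∀ Y : ℕ, Y₀ ≤ Y → ∀ b : Fin g → ℤ, Bounded A (argCount G Y) P b →
        ({x : ℕ × (Fin d → ℤ) | (1 ≤ x.1 ∧ x.1 ≤ Y) ∧ x.2 ∈ region A (argCount G Y) c e b ∧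
          Few ((argCount G Y : ℝ) ^ (1 - ε)) (family P c b x.2) G x.1}.ncard : ℝ) ≤
            Y * (argCount G Y : ℝ) ^ ((∑ j, (e j : ℝ)) - η)) ∧
    ∀ F₀ : ℤ[X], F₀.natDegree = 1 → 0 < F₀.leadingCoeff →
      ∃ η : ℝ, 0 < η ∧ ∃ Y₀ : ℕ, ∀ Y : ℕ, Y₀ ≤ Y → ∀ b : Fin g → ℤ, Bounded A (argCount G Y) P b →
        ({x : ℕ × (Fin d → ℤ) | (1 ≤ x.1 ∧ x.1 ≤ Y) ∧ x.2 ∈ region A (argCount G Y) c e b ∧
          Few ((argCount G Y : ℝ) ^ (1 - ε))
            (Fin.cons F₀ (family P c b x.2) : Fin (g + 1) → ℤ[X]) G x.1}.ncard : ℝ) ≤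
              Y * (argCount G Y : ℝ) ^ ((∑ j, (e j : ℝ)) - η) := by
  classical
  refine ⟨fun hG1 => ?_, ?_, fun F₀ hF hF0 => ?_⟩
  · obtain ⟨η, hη, N₀, h⟩ := Pool.Agent.HUP.T_fix hC G hG1 hG0 P c e hP.dat A ε hε
    refine ⟨η, hη, N₀, fun N hN b hb => ?_⟩
    exact region_le (R := _) (hb := h N hN b hb) fun t h1 h2 => ⟨h1, h2⟩
  · obtain ⟨η, hη, Y₀, h⟩ := Pool.Agent.HUP.T_any hC G hG hG0 P c e hP.dat A ε hε
    refine ⟨η, hη, Y₀, fun Y hY b hb => ?_⟩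
    exact pairs_le (R := _) (hb := h Y hY b hb) fun x h1 h2 => ⟨h1, h2⟩
  · obtain ⟨η, hη, Y₀, h⟩ := Pool.Agent.HUP.T_one hC G hG hG0 P c e hP.dat F₀ hF hF0 A ε hε
    refine ⟨η, hη, Y₀, fun Y hY b hb => ?_⟩
    exact pairs_le (R := _) (hb := h Y hY b hb) fun x h1 h2 => ⟨h1, h2⟩

end Pool.Agent.Results.MP_0bf1d2_nt.PolynomialSystems
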